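import Pool.Graph.R_seed8.TH321.GF.AQ
import Pool.Graph.R_seed8.Y969.GP.Def
import Pool.Graph.R_seed8.TH928.GS.MV

set_option autoImplicit false

/-!
The mean square of the zeta function on the lines `Re s = x`, `1/2 ≤ x ≤ 2` (the statement `S_ZL` of the library
project GP), from the partial sums.
-/

namespace Pool.Agent.H681.GP

open Complex Filter Topology MeasureTheory Set
open Pool.Agent.TH158.FM (pt KK TT saw_all ns_all)

/-! ### Weights `w ^ (-h)` -/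

lemma mono_weight {f : ℝ → ℂ} {c h B : ℝ} (hc : 0 < c) (hh : 0 < h) (hf : IntegrableOn f (Ioi c))
    (hB : ∀ y, c ≤ y → ‖∫ w in Ioi y, f w‖ ≤ B) :
    ‖∫ w in Ioi c, f w * ((w ^ (-h) : ℝ) : ℂ)‖ ≤ 2 * B * c ^ (-h) := by
  have hφr : IntegrableOn (fun y : ℝ => h * y ^ (-h - 1)) (Ioi c) :=
    (integrableOn_Ioi_rpow_of_lt (by linarith) hc).const_mul h
  have hφ : IntegrableOn (fun y : ℝ => ((h * y ^ (-h - 1) : ℝ) : ℂ)) (Ioi c) := hφr.ofReal
  have hval : ∀ w : ℝ, 0 < w → ∫ y in Ioi w, h * y ^ (-h - 1) = w ^ (-h) := by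
    intro w hw
    rw [integral_const_mul, integral_Ioi_rpow_of_lt (by linarith) hw]
    have e : -h - 1 + 1 = -h := by ring
    rw [e]
    field_simp
  have hprod : Integrable (fun p : ℝ × ℝ => f p.1 * ((h * p.2 ^ (-h - 1) : ℝ) : ℂ))
      ((volume.restrict (Ioi c)).prod (volume.restrict (Ioi c))) := Integrable.mul_prod hf hφ
  have hS : MeasurableSet {p : ℝ × ℝ | p.1 < p.2} := measurableSet_lt measurable_fst measurable_snd
  have hG := hprod.indicator hS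
  have hsw := integral_integral_swap (f := fun w y : ℝ =>
    ({p : ℝ × ℝ | p.1 < p.2}).indicator (fun p : ℝ × ℝ => f p.1 * ((h * p.2 ^ (-h - 1) : ℝ) : ℂ)) (w, y)) hG
  have e1 : (∫ w in Ioi c, ∫ y in Ioi c, ({p : ℝ × ℝ | p.1 < p.2}).indicator
      (fun p : ℝ × ℝ => f p.1 * ((h * p.2 ^ (-h - 1) : ℝ) : ℂ)) (w, y)) =
      ∫ w in Ioi c, f w * ((w ^ (-h) : ℝ) : ℂ) := by
    refine setIntegral_congr_fun measurableSet_Ioi fun w hw => ?_
    have hwc : c < w := hw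
    have q1 : (fun y : ℝ => ({p : ℝ × ℝ | p.1 < p.2}).indicator
        (fun p : ℝ × ℝ => f p.1 * ((h * p.2 ^ (-h - 1) : ℝ) : ℂ)) (w, y)) =
        (Ioi w).indicator (fun y : ℝ => f w * ((h * y ^ (-h - 1) : ℝ) : ℂ)) := by
      funext y
      simp only [indicator_apply, mem_ofPred_eq, mem_Ioi]
    rw [q1, setIntegral_indicator measurableSet_Ioi, Ioi_inter_Ioi, sup_eq_right.2 hwc.le, integral_const_mul,
      integral_complex_ofReal (μ := volume.restrict (Ioi w)) (f := fun y : ℝ => h * y ^ (-h - 1)),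
      hval w (hc.trans hwc)]
  have e2 : ∀ y ∈ Ioi c, (∫ w in Ioi c, ({p : ℝ × ℝ | p.1 < p.2}).indicator
      (fun p : ℝ × ℝ => f p.1 * ((h * p.2 ^ (-h - 1) : ℝ) : ℂ)) (w, y)) =
      ((∫ w in Ioi c, f w) - ∫ w in Ioi y, f w) * ((h * y ^ (-h - 1) : ℝ) : ℂ) := by
    intro y hy
    have hyc : c < y := hy
    have q1 : (fun w : ℝ => ({p : ℝ × ℝ | p.1 < p.2}).indicator
        (fun p : ℝ × ℝ => f p.1 * ((h * p.2 ^ (-h - 1) : ℝ) : ℂ)) (w, y)) =
        (Iio y).indicator (fun w : ℝ => f w * ((h * y ^ (-h - 1) : ℝ) : ℂ)) := by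
      funext w
      simp only [indicator_apply, mem_ofPred_eq, mem_Iio]
    rw [q1, setIntegral_indicator measurableSet_Iio, Ioi_inter_Iio, integral_mul_const]
    congr 1
    have hun : Ioi c = Ioc c y ∪ Ioi y := (Ioc_union_Ioi_eq_Ioi hyc.le).symm
    have hs : (∫ w in Ioi c, f w) = (∫ w in Ioc c y, f w) + ∫ w in Ioi y, f w := by
      conv_lhs => rw [hun]
      exact setIntegral_union (Ioc_disjoint_Ioi le_rfl) measurableSet_Ioi
        (hf.mono_set Ioc_subset_Ioi_self) (hf.mono_set (Ioi_subset_Ioi hyc.le))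
    rw [hs, integral_Ioc_eq_integral_Ioo]
    ring
  rw [← e1, hsw]
  have e3 : (∫ y in Ioi c, ∫ w in Ioi c, ({p : ℝ × ℝ | p.1 < p.2}).indicator
      (fun p : ℝ × ℝ => f p.1 * ((h * p.2 ^ (-h - 1) : ℝ) : ℂ)) (w, y)) =
      ∫ y in Ioi c, ((∫ w in Ioi c, f w) - ∫ w in Ioi y, f w) * ((h * y ^ (-h - 1) : ℝ) : ℂ) :=
    setIntegral_congr_fun measurableSet_Ioi e2
  rw [e3]
  refine (norm_integral_le_of_norm_le (g := fun y : ℝ => 2 * B * (h * y ^ (-h - 1))) ?_ ?_).trans ?_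
  · exact hφr.const_mul (2 * B)
  · rw [ae_restrict_iff' measurableSet_Ioi]
    refine Eventually.of_forall fun y hy => ?_
    have hyc : c < y := hy
    have hy0 : 0 < y := hc.trans hyc
    have hq : 0 ≤ h * y ^ (-h - 1) := by positivity
    rw [norm_mul, Complex.norm_real, Real.norm_of_nonneg hq]
    refine mul_le_mul_of_nonneg_right ?_ hq
    refine (norm_sub_le _ _).trans ?_
    have := hB c le_rfl
    have := hB y hyc.le
    linarith
  · rw [integral_const_mul, hval c hc]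

/-! ### The tail integral on the critical line -/

lemma term_c (u c : ℝ) (m : ℕ) (hc : 1 ≤ c) (hm : 1 ≤ m) (hu0 : 0 < u) (huc : u ≤ c) :
    ‖TT m c u‖ ≤ (1 / (2 * Real.sqrt c)) * (1 / (m : ℝ) ^ 2) := by
  have hX0 : (0 : ℝ) < c := by linarith
  have hm0 : (0 : ℝ) < m := by exact_mod_cast hm
  have hm1 : (1 : ℝ) ≤ m := by exact_mod_cast hm
  set q := Real.sqrt c with hq
  have hq0 : 0 < q := Real.sqrt_pos.2 hX0
  have hpi : 3 < Real.pi := Real.pi_gt_three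
  have hmX : c ≤ m * c := by nlinarith
  have hlow : 5 * (m * c : ℝ) ≤ 2 * Real.pi * m * c - u := by
    have h1 : 6 * (m * c : ℝ) ≤ 2 * Real.pi * m * c := by
      have h2 : 0 < (m * c : ℝ) := by positivity
      nlinarith
    linarith
  have hlow2 : 5 * (m * c : ℝ) ≤ 2 * Real.pi * m * c + u := by linarith
  have hmX0 : 0 < (m * c : ℝ) := by positivity
  have hlt : u < 2 * Real.pi * m * c := by linarith
  have k1 : ‖KK m c u‖ ≤ 2 / (q * (5 * (m * c))) := by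
    refine (ns_all.1 u c m hX0 hm hu0 hlt).trans ?_
    rw [← hq]
    gcongr
  have k2 : ‖KK (-m) c u‖ ≤ 2 / (q * (5 * (m * c))) := by
    refine (ns_all.2 u c m hX0 hm hu0.le).trans ?_
    rw [← hq]
    gcongr
  have hs : ‖pt (1 / 2) u‖ ≤ 2 * c := by
    unfold pt
    refine (norm_add_le _ _).trans ?_
    rw [norm_mul, Complex.norm_I, mul_one, Complex.norm_real, Complex.norm_real, Real.norm_eq_abs,
      Real.norm_eq_abs, abs_of_pos hu0, abs_of_pos (by norm_num : (0 : ℝ) < 1 / 2)]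
    linarith
  have hd : ‖(2 * Real.pi * I * m : ℂ)‖ = 2 * Real.pi * m := by
    rw [norm_mul, norm_mul, norm_mul, Complex.norm_I, Complex.norm_real, Complex.norm_natCast,
      Real.norm_eq_abs, abs_of_pos Real.pi_pos]
    simp
  unfold TT
  rw [norm_mul, norm_div, hd]
  have k3 : ‖KK m c u - KK (-m) c u‖ ≤ 4 / (q * (5 * (m * c))) := by
    refine (norm_sub_le _ _).trans ?_
    have : (4 : ℝ) / (q * (5 * (m * c))) = 2 / (q * (5 * (m * c))) + 2 / (q * (5 * (m * c))) := by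
      ring
    rw [this]
    exact add_le_add k1 k2
  have k4 : ‖pt (1 / 2) u‖ / (2 * Real.pi * m) ≤ 2 * c / (6 * m) := by
    gcongr
    linarith
  calc ‖pt (1 / 2) u‖ / (2 * Real.pi * m) * ‖KK m c u - KK (-m) c u‖
      ≤ 2 * c / (6 * m) * (4 / (q * (5 * (m * c)))) := by gcongr
    _ = (4 / 15) * (1 / q * (1 / (m : ℝ) ^ 2)) := by field_simp; ring
    _ ≤ (1 / 2) * (1 / q * (1 / (m : ℝ) ^ 2)) := by
        have : 0 ≤ 1 / q * (1 / (m : ℝ) ^ 2) := by positivity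
        linarith
    _ = (1 / (2 * q)) * (1 / (m : ℝ) ^ 2) := by field_simp

lemma J_bound (u c : ℝ) (hu : 1 ≤ u) (huc : u ≤ c) :
    ‖∫ w in Ioi c, ((Int.fract w - 1 / 2 : ℝ) : ℂ) * (w : ℂ) ^ (-(pt (1 / 2) u) - 1)‖ ≤
      1 / (u * Real.sqrt c) := by
  have hc0 : 0 < c := by linarith
  set q := Real.sqrt c with hq
  have hq0 : 0 < q := Real.sqrt_pos.2 hc0
  have hre := Pool.Agent.TH572.Saw.pt_re u
  have hs : 0 < (pt (1 / 2) u).re := by rw [hre]; norm_num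
  have hs1 : pt (1 / 2) u ≠ 1 := by
    intro h
    rw [h] at hre
    norm_num at hre
  have hsaw := saw_all u c hc0
  rw [← Pool.Agent.TH572.Saw.em hs hs1 hc0] at hsaw
  have hlim : ‖-(pt (1 / 2) u * ∫ w in Ioi c, ((Int.fract w - 1 / 2 : ℝ) : ℂ) *
      (w : ℂ) ^ (-(pt (1 / 2) u) - 1))‖ ≤ 1 / q := by
    refine le_of_tendsto hsaw.norm (Eventually.of_forall fun M => ?_)
    refine (norm_sum_le _ _).trans ?_
    calc ∑ m ∈ Finset.Icc 1 M, ‖TT m c u‖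
        ≤ ∑ m ∈ Finset.Icc 1 M, (1 / (2 * q)) * (1 / (m : ℝ) ^ 2) :=
          Finset.sum_le_sum fun m hm => term_c u c m (hu.trans huc) (Finset.mem_Icc.1 hm).1
            (by linarith) huc
      _ = (1 / (2 * q)) * ∑ m ∈ Finset.Icc 1 M, 1 / (m : ℝ) ^ 2 := by rw [Finset.mul_sum]
      _ ≤ (1 / (2 * q)) * 2 := by
          have := Pool.Agent.TH321.GF.AQ_sq' M
          gcongr
      _ = 1 / q := by field_simp
  have hsn : u ≤ ‖pt (1 / 2) u‖ := by
    have h1 := Complex.abs_im_le_norm (pt (1 / 2) u)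
    have h2 : (pt (1 / 2) u).im = u := by simp [pt]
    rw [h2] at h1
    exact (le_abs_self u).trans h1
  rw [norm_neg, norm_mul] at hlim
  set J := ‖∫ w in Ioi c, ((Int.fract w - 1 / 2 : ℝ) : ℂ) * (w : ℂ) ^ (-(pt (1 / 2) u) - 1)‖ with hJ
  have hJ0 : 0 ≤ J := norm_nonneg _
  have h3 : u * J ≤ 1 / q := (mul_le_mul_of_nonneg_right hsn hJ0).trans hlim
  rw [le_div_iff₀ (by positivity)]
  rw [le_div_iff₀ hq0] at h3
  linarith

/-! ### The approximation -/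

lemma apx (x u : ℝ) (X : ℕ) (hx : 1 / 2 ≤ x) (hx2 : x ≤ 2) (hu : 1 ≤ u) (huX : u ≤ X) :
    ‖riemannZeta (x + I * u) - ∑ n ∈ Finset.Icc 1 X, (n : ℂ) ^ (-((x : ℂ) + I * u))‖ ≤
      Real.sqrt X / u + 7 := by
  have hX1 : (1 : ℝ) ≤ X := hu.trans huX
  have hX0 : (0 : ℝ) < X := by linarith
  have hXpos : 0 < X := by exact_mod_cast hX0
  have hu0 : 0 < u := by linarith
  set q := Real.sqrt X with hq
  have hq0 : 0 < q := Real.sqrt_pos.2 hX0
  have hq1 : 1 ≤ q := by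
    rw [hq]
    exact Real.one_le_sqrt.2 hX1
  obtain ⟨s, hsd⟩ : ∃ s : ℂ, s = (x : ℂ) + I * u := ⟨_, rfl⟩
  rw [← hsd]
  have hre : s.re = x := by simp [hsd]
  have him : s.im = u := by simp [hsd]
  have hs0 : 0 < s.re := by rw [hre]; linarith
  have hs1 : s ≠ 1 := by
    intro h
    rw [h] at him
    simp at him
    linarith
  have hem := Pool.Agent.TH572.Saw.em hs0 hs1 hX0
  rw [Nat.floor_natCast, Int.fract_natCast, Complex.ofReal_natCast] at hem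
  have e0 : riemannZeta s - ∑ n ∈ Finset.Icc 1 X, (n : ℂ) ^ (-s) =
      -(s * ∫ u in Ioi (X : ℝ), ((Int.fract u - 1 / 2 : ℝ) : ℂ) * (u : ℂ) ^ (-s - 1)) -
      (X : ℂ) ^ (1 - s) / (1 - s) + ((0 - 1 / 2 : ℝ) : ℂ) * (X : ℂ) ^ (-s) := by
    rw [hem]
    ring
  rw [e0]
  have hh : 0 ≤ x - 1 / 2 := by linarith
  have hint : (∫ w in Ioi (X : ℝ), ((Int.fract w - 1 / 2 : ℝ) : ℂ) * (w : ℂ) ^ (-s - 1)) =
      ∫ w in Ioi (X : ℝ), (((Int.fract w - 1 / 2 : ℝ) : ℂ) * (w : ℂ) ^ (-(pt (1 / 2) u) - 1)) *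
        ((w ^ (-(x - 1 / 2)) : ℝ) : ℂ) := by
    refine setIntegral_congr_fun measurableSet_Ioi fun w hw => ?_
    have hw0 : 0 < w := hX0.trans hw
    have hwc : (w : ℂ) ≠ 0 := by exact_mod_cast hw0.ne'
    rw [Complex.ofReal_cpow hw0.le, mul_assoc, ← Complex.cpow_add _ _ hwc]
    congr 2
    rw [hsd]
    unfold pt
    push_cast
    ring
  have hJ : ∀ y : ℝ, (X : ℝ) ≤ y →
      ‖∫ w in Ioi y, ((Int.fract w - 1 / 2 : ℝ) : ℂ) * (w : ℂ) ^ (-(pt (1 / 2) u) - 1)‖ ≤ 1 / u := by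
    intro y hy
    refine (J_bound u y hu (huX.trans hy)).trans ?_
    have hy1 : 1 ≤ Real.sqrt y := Real.one_le_sqrt.2 (hX1.trans hy)
    gcongr
    nlinarith
  have hreu := Pool.Agent.TH572.Saw.pt_re u
  have hsu : 0 < (pt (1 / 2) u).re := by rw [hreu]; norm_num
  have hI : ‖∫ w in Ioi (X : ℝ), ((Int.fract w - 1 / 2 : ℝ) : ℂ) * (w : ℂ) ^ (-s - 1)‖ ≤ 2 / u := by
    rw [hint]
    rcases hh.eq_or_lt with h0 | h0
    · rw [← h0]
      simp only [neg_zero, Real.rpow_zero, Complex.ofReal_one, mul_one]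
      refine (hJ X le_rfl).trans ?_
      gcongr
      norm_num
    · refine (mono_weight hX0 h0 (Pool.Agent.TH572.Saw.half_int hX0 hsu) hJ).trans ?_
      have h1 : (X : ℝ) ^ (-(x - 1 / 2)) ≤ 1 := Real.rpow_le_one_of_one_le_of_nonpos hX1 (by linarith)
      have h2 : 0 ≤ 2 * (1 / u) := by positivity
      calc 2 * (1 / u) * (X : ℝ) ^ (-(x - 1 / 2)) ≤ 2 * (1 / u) * 1 :=
            mul_le_mul_of_nonneg_left h1 h2
        _ = 2 / u := by ring
  have hsn : ‖s‖ ≤ 3 * u := by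
    rw [hsd]
    refine (norm_add_le _ _).trans ?_
    rw [norm_mul, Complex.norm_I, one_mul, Complex.norm_real, Complex.norm_real, Real.norm_eq_abs,
      Real.norm_eq_abs, abs_of_pos hu0, abs_of_pos (by linarith : (0 : ℝ) < x)]
    linarith
  have b1 : ‖-(s * ∫ w in Ioi (X : ℝ), ((Int.fract w - 1 / 2 : ℝ) : ℂ) * (w : ℂ) ^ (-s - 1))‖ ≤ 6 := by
    rw [norm_neg, norm_mul]
    calc ‖s‖ * ‖∫ w in Ioi (X : ℝ), ((Int.fract w - 1 / 2 : ℝ) : ℂ) * (w : ℂ) ^ (-s - 1)‖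
        ≤ 3 * u * (2 / u) := by gcongr
      _ = 6 := by field_simp; norm_num
  have n2 : ‖(X : ℂ) ^ (1 - s)‖ ≤ q := by
    rw [Complex.norm_natCast_cpow_of_pos hXpos, Complex.sub_re, hre, hq, Real.sqrt_eq_rpow]
    refine Real.rpow_le_rpow_of_exponent_le hX1 ?_
    simp only [Complex.one_re]
    linarith
  have hs1n : u ≤ ‖1 - s‖ := by
    have h1 := Complex.abs_im_le_norm (1 - s)
    have h2 : (1 - s).im = -u := by rw [Complex.sub_im, him]; simp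
    rw [h2, abs_neg, abs_of_nonneg hu0.le] at h1
    exact h1
  have b2 : ‖(X : ℂ) ^ (1 - s) / (1 - s)‖ ≤ q / u := by
    rw [norm_div]
    gcongr
  have b3 : ‖((0 - 1 / 2 : ℝ) : ℂ) * (X : ℂ) ^ (-s)‖ ≤ 1 := by
    rw [norm_mul, Complex.norm_natCast_cpow_of_pos hXpos, Complex.neg_re, hre, Complex.norm_real,
      Real.norm_eq_abs, show |(0 - 1 / 2 : ℝ)| = 1 / 2 by norm_num]
    have h1 : (X : ℝ) ^ (-x) ≤ 1 := Real.rpow_le_one_of_one_le_of_nonpos hX1 (by linarith)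
    linarith
  refine (norm_add_le _ _).trans ?_
  have t1 := norm_sub_le (-(s * ∫ w in Ioi (X : ℝ), ((Int.fract w - 1 / 2 : ℝ) : ℂ) *
    (w : ℂ) ^ (-s - 1))) ((X : ℂ) ^ (1 - s) / (1 - s))
  linarith

/-! ### The mean square -/

lemma harm (X : ℕ) (hX : 1 ≤ X) : ∑ n ∈ Finset.Icc 1 X, 1 / (n : ℝ) ≤ 1 + Real.log X := by
  have h := harmonic_le_one_add_log X
  rw [harmonic_eq_sum_Icc] at h
  push_cast at h
  simpa [one_div] using h

lemma zcont (x : ℝ) (T : ℝ) : ContinuousOn (fun v : ℝ => ‖riemannZeta ((x : ℂ) + I * v)‖ ^ 2)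
    (Icc 1 T) := by
  refine ContinuousOn.pow (ContinuousOn.norm ?_) 2
  intro v hv
  have hne : (x : ℂ) + I * v ≠ 1 := by
    intro h
    have := congrArg Complex.im h
    simp at this
    have h1 : (1 : ℝ) ≤ v := hv.1
    linarith
  have hd : DifferentiableAt ℂ riemannZeta ((x : ℂ) + I * v) := differentiableAt_riemannZeta hne
  have hc : ContinuousAt (fun v : ℝ => (x : ℂ) + I * v) v := by fun_prop
  exact (ContinuousAt.comp (f := fun v : ℝ => (x : ℂ) + I * v) hd.continuousAt hc).continuousWithinAt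

lemma invsq (T : ℝ) (hT : 1 ≤ T) : ∫ v in (1 : ℝ)..T, 1 / v ^ 2 = 1 - 1 / T := by
  have h : ∫ v in (1 : ℝ)..T, 1 / v ^ 2 = (-(1 / T)) - (-(1 / 1)) := by
    apply intervalIntegral.integral_eq_sub_of_hasDerivAt (f := fun v => -(1 / v))
    · intro v hv
      rw [uIcc_of_le hT] at hv
      have hv0 : v ≠ 0 := by linarith [hv.1]
      have h1 := (hasDerivAt_inv hv0).neg
      have e : (fun v : ℝ => -(1 / v)) = fun v : ℝ => -(v⁻¹) := by
        funext v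
        rw [one_div]
      rw [e]
      refine h1.congr_deriv ?_
      rw [neg_neg, one_div]
    · apply ContinuousOn.intervalIntegrable
      rw [uIcc_of_le hT]
      intro v hv
      have hv0 : v ≠ 0 := by linarith [hv.1]
      exact (ContinuousAt.div continuousAt_const (by fun_prop) (by positivity)).continuousWithinAt
  rw [h]
  norm_num
  ring

theorem t_ZL : Pool.Agent.Y969.GP.S_ZL := by
  intro κ hκ
  obtain ⟨C, hC, hMV⟩ := Pool.Agent.TH928.GS.t_MV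
  refine ⟨2 * (C * (2 * (1 + (1 + 1 / κ) * 2 ^ κ) + 2)) + 8 + 196, by positivity, ?_⟩
  intro x T hx hx2 hT
  have hT0 : 0 < T := by linarith
  obtain ⟨X, hXd⟩ : ∃ X : ℕ, X = ⌈T⌉₊ := ⟨_, rfl⟩
  have hTX : T ≤ X := by rw [hXd]; exact Nat.le_ceil T
  have hXT : (X : ℝ) ≤ T + 1 := by rw [hXd]; exact (Nat.ceil_lt_add_one hT0.le).le
  have hX0 : (0 : ℝ) < X := by linarith
  have hX1 : 1 ≤ X := by
    have : 0 < X := by exact_mod_cast hX0
    omega
  have hX1' : (1 : ℝ) ≤ X := by exact_mod_cast hX1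
  have hq : Real.sqrt X ^ 2 = X := Real.sq_sqrt hX0.le
  have hM := hMV (T + 1) X (fun n => (n : ℂ) ^ (-(x : ℂ))) (by linarith) (by nlinarith)
  have hterm : ∀ n ∈ Finset.Icc 1 X, (T + 1 + n) * ‖(n : ℂ) ^ (-(x : ℂ))‖ ^ 2 ≤
      (T + 1) * (1 / (n : ℝ)) + 1 := by
    intro n hn
    have hn1 : 1 ≤ n := (Finset.mem_Icc.1 hn).1
    have hn0 : 0 < n := by omega
    have hnr : (1 : ℝ) ≤ n := by exact_mod_cast hn1
    have hnr0 : (0 : ℝ) < n := by linarith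
    rw [Complex.norm_natCast_cpow_of_pos hn0, Complex.neg_re, Complex.ofReal_re]
    have h1 : ((n : ℝ) ^ (-x)) ^ 2 ≤ 1 / n := by
      rw [← Real.rpow_natCast, ← Real.rpow_mul hnr0.le, one_div, ← Real.rpow_neg_one]
      refine Real.rpow_le_rpow_of_exponent_le hnr ?_
      push_cast
      linarith
    calc (T + 1 + n) * ((n : ℝ) ^ (-x)) ^ 2 ≤ (T + 1 + n) * (1 / n) := by gcongr
      _ = (T + 1) * (1 / (n : ℝ)) + 1 := by field_simp
  have hsum : ∑ n ∈ Finset.Icc 1 X, (T + 1 + n) * ‖(n : ℂ) ^ (-(x : ℂ))‖ ^ 2 ≤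
      (T + 1) * (1 + Real.log X) + X := by
    refine (Finset.sum_le_sum hterm).trans ?_
    rw [Finset.sum_add_distrib, ← Finset.mul_sum]
    have h1 := harm X hX1
    have h2 : ∑ n ∈ Finset.Icc 1 X, (1 : ℝ) = X := by simp
    rw [h2]
    have h3 : (T + 1) * ∑ n ∈ Finset.Icc 1 X, 1 / (n : ℝ) ≤ (T + 1) * (1 + Real.log X) :=
      mul_le_mul_of_nonneg_left h1 (by linarith)
    linarith
  have hlog : Real.log X ≤ (1 / κ) * 2 ^ κ * T ^ κ := by
    have h1 : Real.log X ≤ (X : ℝ) ^ κ / κ := Real.log_le_rpow_div hX0.le hκ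
    have h2 : (X : ℝ) ^ κ ≤ (2 * T) ^ κ := Real.rpow_le_rpow hX0.le (by linarith) hκ.le
    rw [Real.mul_rpow (by norm_num) hT0.le] at h2
    calc Real.log X ≤ (X : ℝ) ^ κ / κ := h1
      _ ≤ (2 ^ κ * T ^ κ) / κ := by gcongr
      _ = (1 / κ) * 2 ^ κ * T ^ κ := by ring
  have hTκ : 1 ≤ T ^ κ := Real.one_le_rpow hT hκ.le
  have h2κ : 0 < (2 : ℝ) ^ κ := by positivity
  have hTT : T ^ (1 + κ) = T * T ^ κ := by
    rw [Real.rpow_add hT0, Real.rpow_one]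
  have hbnd : (T + 1) * (1 + Real.log X) + X ≤ (2 * (1 + (1 + 1 / κ) * 2 ^ κ) + 2) * T ^ (1 + κ) := by
    rw [hTT]
    have hlog0 : 0 ≤ Real.log X := Real.log_nonneg hX1'
    have h1 : (T + 1) * (1 + Real.log X) ≤ (2 * T) * (1 + (1 / κ) * 2 ^ κ * T ^ κ) := by
      apply mul_le_mul (by linarith) (by linarith) (by linarith) (by linarith)
    have h2 : (2 * T) * (1 + (1 / κ) * 2 ^ κ * T ^ κ) ≤ (2 * T) * ((1 + (1 + 1 / κ) * 2 ^ κ) * T ^ κ) := by
      apply mul_le_mul_of_nonneg_left _ (by linarith)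
      have : 0 ≤ 2 ^ κ * T ^ κ := by positivity
      nlinarith
    have h3 : (X : ℝ) ≤ 2 * (T * T ^ κ) := by nlinarith
    nlinarith
  have hpt : ∀ v ∈ Icc (1 : ℝ) T, ‖riemannZeta ((x : ℂ) + I * v)‖ ^ 2 ≤
      2 * ‖∑ n ∈ Finset.Icc 1 X, (n : ℂ) ^ (-(x : ℂ)) * (n : ℂ) ^ (-(I * (v : ℂ)))‖ ^ 2 +
        (4 * X * (1 / v ^ 2) + 196) := by
    intro v hv
    have hv1 : 1 ≤ v := hv.1
    have hv0 : 0 < v := by linarith
    have h1 := apx x v X hx hx2 hv1 (hv.2.trans hTX)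
    have e1 : ∑ n ∈ Finset.Icc 1 X, (n : ℂ) ^ (-((x : ℂ) + I * v)) =
        ∑ n ∈ Finset.Icc 1 X, (n : ℂ) ^ (-(x : ℂ)) * (n : ℂ) ^ (-(I * (v : ℂ))) := by
      refine Finset.sum_congr rfl fun n hn => ?_
      have hn1 : 1 ≤ n := (Finset.mem_Icc.1 hn).1
      have hn0 : (n : ℂ) ≠ 0 := by
        have : n ≠ 0 := by omega
        exact_mod_cast this
      rw [← Complex.cpow_add _ _ hn0]
      congr 1
      ring
    rw [e1] at h1
    set S := ∑ n ∈ Finset.Icc 1 X, (n : ℂ) ^ (-(x : ℂ)) * (n : ℂ) ^ (-(I * (v : ℂ))) with hS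
    set Z := riemannZeta ((x : ℂ) + I * v) with hZ
    have h2 : ‖Z‖ ≤ ‖S‖ + (Real.sqrt X / v + 7) := by
      have h3 := norm_add_le S (Z - S)
      have e : S + (Z - S) = Z := by ring
      rw [e] at h3
      linarith
    have h3 : 4 * X * (1 / v ^ 2) = 4 * (Real.sqrt X / v) ^ 2 := by
      rw [div_pow, hq]
      ring
    rw [h3]
    have h4 : 0 ≤ Real.sqrt X / v := by positivity
    have h5 : ‖Z‖ ^ 2 ≤ (‖S‖ + (Real.sqrt X / v + 7)) ^ 2 :=
      pow_le_pow_left₀ (norm_nonneg _) h2 2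
    nlinarith [sq_nonneg (‖S‖ - (Real.sqrt X / v + 7)), sq_nonneg (Real.sqrt X / v - 7)]
  have hcS : Continuous fun v : ℝ =>
      ‖∑ n ∈ Finset.Icc 1 X, (n : ℂ) ^ (-(x : ℂ)) * (n : ℂ) ^ (-(I * (v : ℂ)))‖ ^ 2 :=
    (Pool.Agent.TH928.GS.mv_cont X fun n => (n : ℂ) ^ (-(x : ℂ))).norm.pow 2
  have hcv : ContinuousOn (fun v : ℝ => 4 * (X : ℝ) * (1 / v ^ 2) + 196) (Icc 1 T) := by
    intro v hv
    have hv0 : v ≠ 0 := by linarith [hv.1]
    have h1 : ContinuousAt (fun v : ℝ => 1 / v ^ 2) v :=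
      ContinuousAt.div continuousAt_const (by fun_prop) (by positivity)
    exact ((h1.const_mul (4 * (X : ℝ))).add continuousAt_const).continuousWithinAt
  have hi1 : IntervalIntegrable (fun v : ℝ => 2 *
      ‖∑ n ∈ Finset.Icc 1 X, (n : ℂ) ^ (-(x : ℂ)) * (n : ℂ) ^ (-(I * (v : ℂ)))‖ ^ 2) volume 1 T :=
    (hcS.const_mul 2).intervalIntegrable _ _
  have hi2 : IntervalIntegrable (fun v : ℝ => 4 * (X : ℝ) * (1 / v ^ 2) + 196) volume 1 T := by
    apply ContinuousOn.intervalIntegrable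
    rw [uIcc_of_le hT]
    exact hcv
  have hmono : ∫ v in (1 : ℝ)..T, ‖riemannZeta ((x : ℂ) + I * v)‖ ^ 2 ≤
      ∫ v in (1 : ℝ)..T, (2 * ‖∑ n ∈ Finset.Icc 1 X, (n : ℂ) ^ (-(x : ℂ)) *
        (n : ℂ) ^ (-(I * (v : ℂ)))‖ ^ 2 + (4 * X * (1 / v ^ 2) + 196)) := by
    refine intervalIntegral.integral_mono_on hT ?_ (hi1.add hi2) hpt
    apply ContinuousOn.intervalIntegrable
    rw [uIcc_of_le hT]
    exact zcont x T
  refine hmono.trans ?_
  rw [intervalIntegral.integral_add hi1 hi2, intervalIntegral.integral_const_mul]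
  have hA : ∫ v in (1 : ℝ)..T, ‖∑ n ∈ Finset.Icc 1 X, (n : ℂ) ^ (-(x : ℂ)) *
      (n : ℂ) ^ (-(I * (v : ℂ)))‖ ^ 2 ≤ ∫ v in (0 : ℝ)..(2 * (T + 1)),
      ‖∑ n ∈ Finset.Icc 1 X, (n : ℂ) ^ (-(x : ℂ)) * (n : ℂ) ^ (-(I * (v : ℂ)))‖ ^ 2 := by
    refine intervalIntegral.integral_mono_interval (by norm_num) hT (by linarith) ?_
      (hcS.intervalIntegrable _ _)
    exact Eventually.of_forall fun v => by positivity
  have hB : ∫ v in (1 : ℝ)..T, (4 * (X : ℝ) * (1 / v ^ 2) + 196) ≤ 8 * T + 196 * T := by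
    have hi3 : IntervalIntegrable (fun v : ℝ => 1 / v ^ 2) volume 1 T := by
      apply ContinuousOn.intervalIntegrable
      rw [uIcc_of_le hT]
      intro v hv
      have hv0 : v ≠ 0 := by linarith [hv.1]
      exact (ContinuousAt.div continuousAt_const (by fun_prop) (by positivity)).continuousWithinAt
    rw [intervalIntegral.integral_add (hi3.const_mul _) intervalIntegrable_const,
      intervalIntegral.integral_const_mul, invsq T hT, intervalIntegral.integral_const, smul_eq_mul]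
    have h1 : 0 < 1 / T := by positivity
    nlinarith
  have hfin : C * ∑ n ∈ Finset.Icc 1 X, (T + 1 + n) * ‖(n : ℂ) ^ (-(x : ℂ))‖ ^ 2 ≤
      C * ((2 * (1 + (1 + 1 / κ) * 2 ^ κ) + 2) * T ^ (1 + κ)) :=
    mul_le_mul_of_nonneg_left (hsum.trans hbnd) hC.le
  have hTle : T ≤ T ^ (1 + κ) := by
    rw [hTT]
    nlinarith
  have hM' : ∫ v in (0 : ℝ)..(2 * (T + 1)),
      ‖∑ n ∈ Finset.Icc 1 X, (n : ℂ) ^ (-(x : ℂ)) * (n : ℂ) ^ (-(I * (v : ℂ)))‖ ^ 2 ≤
      C * ((2 * (1 + (1 + 1 / κ) * 2 ^ κ) + 2) * T ^ (1 + κ)) := hM.trans hfin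
  calc _ ≤ 2 * (C * ((2 * (1 + (1 + 1 / κ) * 2 ^ κ) + 2) * T ^ (1 + κ))) + (8 * T + 196 * T) := by
        linarith
    _ ≤ _ := by
        nlinarith

end Pool.Agent.H681.GP
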