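import Pool.Graph.R_seed8.Y969.GP.BR5
import Pool.Graph.R_seed8.Y969.GP.Fin2
import Pool.Graph.R_seed8.Y969.GP.Fin3
import Pool.Graph.R_seed8.Y125.GP.LSW
import Pool.Graph.R_seed8.Y125.GP.VAR
import Pool.Graph.R_seed8.Y155.GP.D1
import Pool.Graph.R_seed8.Y180.GP.Mel
import Pool.Graph.R_seed8.Y185.GP.HOL
import Pool.Graph.R_seed8.Y22.GP.Tel
import Pool.Graph.R_seed8.Y232.GP.E1
import Pool.Graph.R_seed8.Y258.GP.MB
import Pool.Graph.R_seed8.Y319.GP.FB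
import Pool.Graph.R_seed8.Y321.GP.FD
import Pool.Graph.R_seed8.Y379.GP.Sp
import Pool.Graph.R_seed8.Y379.GP.Off
import Pool.Graph.R_seed8.Y434.GP.RPL
import Pool.Graph.R_seed8.Y545.GP.CR
import Pool.Graph.R_seed8.Y587.GP.Chi
import Pool.Graph.R_seed8.Y587.GP.V
import Pool.Graph.R_seed8.Y79.GP.ZP
import Pool.Graph.R_seed8.Y86.GP.CT
import Pool.Graph.R_seed8.Y891.GP.AFE
import Pool.Graph.R_seed8.Y961.GP.NS
import Pool.Agent.H681.GP.ZL
import Pool.Agent.H681.SX.SM2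

set_option autoImplicit false

/-!
Assembly of the library project GP: moments of zeta with shifts in a large box, with remainder
`T ^ (1/2 + ε)` outside a small set of shifts.
-/

namespace Pool.Agent.H681.GP

open Pool.Agent.Y969.GP

theorem gp_main : S_MAIN ∧ S_RRW := by
  have hV : S_V := Pool.Agent.Y587.GP.t_V
  have hCHI : S_CHI := Pool.Agent.Y587.GP.Chi.t_CHI
  have hAFE : S_AFE := Pool.Agent.Y891.GP.t_AFE hV hCHI
  have hSM : S_SM := Pool.Agent.H681.SX.t_SM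
  have hRPL : S_RPL := Pool.Agent.Y434.GP.t_RPL hAFE hSM
  have hSP : S_SP := Pool.Agent.Y379.GP.t_SP
  have hLSW : S_LSW := Pool.Agent.Y125.GP.t_LSW hSP
  have hOFF : S_OFF := Pool.Agent.Y379.GP.t_OFF
  have hCR : S_CR := Pool.Agent.Y545.GP.t_CR hV
  have hVAR : S_VAR := Pool.Agent.Y125.GP.t_VAR hSP hLSW hOFF hCR
  have hD1 : S_D1 := Pool.Agent.Y155.GP.t_D1
  have hD2 : S_D2 := Pool.Agent.Y155.GP.t_D2
  have hTEL : S_TEL := Pool.Agent.Y22.GP.t_TEL hD1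
  have hTEL2 : S_TEL2 := Pool.Agent.Y22.GP.t_TEL2 hD2
  have hFD : S_FD := Pool.Agent.Y321.GP.t_FD
  have hFB : S_FB := Pool.Agent.Y319.GP.t_FB hFD
  have hFHD : S_FHD := Pool.Agent.Y319.GP.t_FHD hFD
  have hFHC : S_FHC := Pool.Agent.Y319.GP.t_FHC hFD
  have hHOL : S_HOL := Pool.Agent.Y185.GP.t_HOL hFHD hFHC
  have hHOL2 : S_HOL2 := Pool.Agent.Y185.GP.t_HOL2 hFHD hFHC
  have hMB : S_MB := Pool.Agent.Y258.GPMB.t_MB hFB t_ZL Pool.Agent.Y79.GP.t_ZP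
  have hMEL : S_MEL := Pool.Agent.Y180.GP.t_MEL hV
  have hBRW := t_BRW hTEL hTEL2 hHOL hHOL2 hMB hMEL
  have hRRW := t_RRW hTEL2 hHOL hHOL2 hMB
  exact ⟨t_MAIN hVAR hRPL hBRW hRRW Pool.Agent.Y961.GP.t_NS (Pool.Agent.Y232.GP.t_E1 hSM)
    (Pool.Agent.Y86.GP.t_CT hV), hRRW⟩

open MeasureTheory Set in
/-- the main theorem, with the integrability of the main term -/
theorem gp_full (n : ℕ) (ε : ℝ) (hε : 0 < ε) : ∃ δ T₀ : ℝ, 0 < δ ∧ ∀ T S : ℝ, T₀ ≤ T → 0 ≤ S →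
    S ≤ T → volume {c : Fin n → ℝ | (∀ j, 0 ≤ c j ∧ c j ≤ T) ∧
      ¬(IntervalIntegrable (fun t => RR c t) volume 0 S ∧
        ‖((∫ t in (0 : ℝ)..S, ∏ j, ff (t + cc c j) : ℝ) : ℂ) - ∫ t in (0 : ℝ)..S, RR c t‖ ≤
          T ^ (1 / 2 + ε))} ≤ ENNReal.ofReal (T ^ ((n : ℝ) - δ)) := by
  obtain ⟨hM, hR⟩ := gp_main
  obtain ⟨δ, T₁, hδ, h1⟩ := hM n ε hε
  obtain ⟨K, hK, hR2⟩ := hR n
  obtain ⟨T₂, hT₂, h2⟩ := hR2 (1 / 64) (by norm_num) (by norm_num)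
  obtain ⟨C, hC, h3⟩ := Pool.Agent.Y961.GP.t_NS n
  set d : ℝ := min δ (1 / 64) with hd
  have hd0 : 0 < d := lt_min hδ (by norm_num)
  obtain ⟨T₃, hT₃⟩ := Filter.eventually_atTop.1
    ((tendsto_rpow_atTop (y := d / 2) (by linarith)).eventually_ge_atTop (C + 1))
  refine ⟨d / 2, max (max T₁ T₂) (max T₃ 1), by linarith, fun T S hT hS0 hST => ?_⟩
  have hT1 : T₁ ≤ T := ((le_max_left _ _).trans (le_max_left _ _)).trans hT
  have hT2 : T₂ ≤ T := ((le_max_right _ _).trans (le_max_left _ _)).trans hT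
  have hT3 : T₃ ≤ T := ((le_max_left _ _).trans (le_max_right _ _)).trans hT
  have hTge : 1 ≤ T := ((le_max_right _ _).trans (le_max_right _ _)).trans hT
  have hT0 : 0 < T := by linarith
  have g := hT₃ T hT3
  set a : ℝ := T ^ (1 - 1 / 64 : ℝ) with ha
  have ha1 : 1 ≤ a := Real.one_le_rpow hTge (by norm_num)
  have haT : a ≤ T := by
    rw [ha]
    calc T ^ (1 - 1 / 64 : ℝ) ≤ T ^ (1 : ℝ) := Real.rpow_le_rpow_of_exponent_le hTge (by norm_num)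
      _ = T := Real.rpow_one T
  obtain ⟨W, -, -, -, hW⟩ := h2 T a hT2 le_rfl haT
  have hsub : {c : Fin n → ℝ | (∀ j, 0 ≤ c j ∧ c j ≤ T) ∧
      ¬(IntervalIntegrable (fun t => RR c t) volume 0 S ∧
        ‖((∫ t in (0 : ℝ)..S, ∏ j, ff (t + cc c j) : ℝ) : ℂ) - ∫ t in (0 : ℝ)..S, RR c t‖ ≤
          T ^ (1 / 2 + ε))} ⊆
      {c : Fin n → ℝ | (∀ j, 0 ≤ c j ∧ c j ≤ T) ∧ T ^ (1 / 2 + ε) <
        ‖((∫ t in (0 : ℝ)..S, ∏ j, ff (t + cc c j) : ℝ) : ℂ) - ∫ t in (0 : ℝ)..S, RR c t‖} ∪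
      ({c : Fin n → ℝ | ∀ j, 0 ≤ c j ∧ c j ≤ T} \ Gd n a T) := by
    rintro c ⟨hc, hbad⟩
    by_cases hcG : c ∈ Gd n a T
    · left
      refine ⟨hc, ?_⟩
      by_contra hle
      push Not at hle
      refine hbad ⟨?_, hle⟩
      obtain ⟨rc, ri, -⟩ := hW c hcG
      have r2 : IntervalIntegrable (fun t => RR c t) volume 1 (max S 1) := by
        apply ContinuousOn.intervalIntegrable
        rw [uIcc_of_le (le_max_right _ _)]
        exact rc.mono fun t ht => lt_of_lt_of_le one_pos ht.1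
      have r3 := ri.trans r2
      refine r3.mono_set ?_
      rw [uIcc_of_le hS0, uIcc_of_le (by positivity)]
      exact Icc_subset_Icc_right (le_max_left _ _)
    · exact Or.inr ⟨hc, hcG⟩
  have hTd : 0 < T ^ ((n : ℝ) - d) := by positivity
  have w1 : ENNReal.ofReal (T ^ ((n : ℝ) - δ)) ≤ ENNReal.ofReal (T ^ ((n : ℝ) - d)) :=
    ENNReal.ofReal_le_ofReal (Real.rpow_le_rpow_of_exponent_le hTge
      (by linarith [min_le_left δ (1 / 64)]))
  have w2 : ENNReal.ofReal (C * (a / T) * T ^ n) ≤ ENNReal.ofReal (C * T ^ ((n : ℝ) - d)) := by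
    refine ENNReal.ofReal_le_ofReal ?_
    have e1 : a / T = T ^ (-(1 / 64) : ℝ) := by
      rw [ha]
      nth_rewrite 2 [← Real.rpow_one T]
      rw [← Real.rpow_sub hT0]
      congr 1; ring
    rw [e1, ← Real.rpow_natCast, mul_assoc, ← Real.rpow_add hT0]
    refine mul_le_mul_of_nonneg_left ?_ hC.le
    exact Real.rpow_le_rpow_of_exponent_le hTge (by linarith [min_le_right δ (1 / 64)])
  calc volume _ ≤ _ := measure_mono hsub
    _ ≤ _ := measure_union_le _ _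
    _ ≤ ENNReal.ofReal (T ^ ((n : ℝ) - d)) + ENNReal.ofReal (C * T ^ ((n : ℝ) - d)) :=
        add_le_add ((h1 T S hT1 hS0 hST).trans w1)
          ((h3 a T (by linarith) haT).trans w2)
    _ = ENNReal.ofReal ((C + 1) * T ^ ((n : ℝ) - d)) := by
        rw [← ENNReal.ofReal_add (by positivity) (by positivity)]
        congr 1; ring
    _ ≤ _ := by
        refine ENNReal.ofReal_le_ofReal ?_
        calc (C + 1) * T ^ ((n : ℝ) - d) ≤ T ^ (d / 2) * T ^ ((n : ℝ) - d) := by gcongr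
          _ = T ^ ((n : ℝ) - d / 2) := by
              rw [← Real.rpow_add hT0]
              congr 1; ring

end Pool.Agent.H681.GP
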